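import Pool.Agent.H.MP_5edfab_co.C

set_option autoImplicit false

namespace Pool.Agent.Results.MP_5edfab_co.Asymp

open Filter Topology Pool.Agent.H.MP_5edfab_co

/-- `F(n) = (1 + o(1)) n^(2/3)`. -/
theorem result : Tendsto (fun n : ℕ => (F n : ℝ) / (n : ℝ) ^ (2 / 3 : ℝ)) atTop (𝓝 1) := main

end Pool.Agent.Results.MP_5edfab_co.Asymp
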